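import Pool.Agent.H27.HB.TF

/-!
# MP_8352e3_an: module CAL (the Laplacian of the monomials)

`D = X - i Y` and `D' = X + i Y` are derivations, `D` kills `conj z_j`, `conj ν`, and `D'` kills
`z_j`, `ν`.
-/

set_option autoImplicit false

namespace Pool.Agent.H20.HB
open MeasureTheory Set Filter Topology Pool.Agent.H80.HS Pool.Agent.H93.HQ Pool.Agent.H27.HB
open scoped ContDiff ENNReal ComplexConjugate

namespace Cal

variable {n : ℕ}

/-- the direction of `X_j` -/
noncomputable def vX (j : Fin n) (z : H n) : H n := (EuclideanSpace.single j (1 : ℝ), 0, 2 * z.2.1 j)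

/-- the direction of `Y_j` -/
noncomputable def vY (j : Fin n) (z : H n) : H n := (0, EuclideanSpace.single j (1 : ℝ), -2 * z.1 j)

/-- the values of `X - i Y` and `X + i Y` -/
def W (F : H n → ℂ) (j : Fin n) (z : H n) (d d' : ℂ) : Prop :=
  ∃ L : H n →L[ℝ] ℂ, HasFDerivAt F L z ∧ L (vX j z) - Complex.I * L (vY j z) = d ∧
    L (vX j z) + Complex.I * L (vY j z) = d'

theorem W.X_eq {F : H n → ℂ} {j : Fin n} {z : H n} {d d' : ℂ} (h : W F j z d d') :
    X F j z = (d + d') / 2 := by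
  obtain ⟨L, hL, h1, h2⟩ := h
  have : X F j z = L (vX j z) := by
    show fderiv ℝ F z (vX j z) = _
    rw [hL.fderiv]
  rw [this, ← h1, ← h2]
  ring

theorem W.Y_eq {F : H n → ℂ} {j : Fin n} {z : H n} {d d' : ℂ} (h : W F j z d d') :
    Y F j z = Complex.I * (d - d') / 2 := by
  obtain ⟨L, hL, h1, h2⟩ := h
  have : Y F j z = L (vY j z) := by
    show fderiv ℝ F z (vY j z) = _
    rw [hL.fderiv]
  rw [this, ← h1, ← h2]
  linear_combination (L (vY j z)) * Complex.I_mul_I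

theorem W.congr {F : H n → ℂ} {j : Fin n} {z : H n} {d d' e e' : ℂ} (h : W F j z d d')
    (h1 : d = e) (h2 : d' = e') : W F j z e e' := by
  rw [← h1, ← h2]
  exact h

theorem W_const (c : ℂ) (j : Fin n) (z : H n) : W (fun _ => c) j z 0 0 :=
  ⟨0, hasFDerivAt_const c z, by simp, by simp⟩

theorem W.add {F G : H n → ℂ} {j : Fin n} {z : H n} {d d' e e' : ℂ} (hF : W F j z d d')
    (hG : W G j z e e') : W (fun y => F y + G y) j z (d + e) (d' + e') := by
  obtain ⟨L, hL, h1, h2⟩ := hF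
  obtain ⟨K, hK, h3, h4⟩ := hG
  refine ⟨L + K, hL.add hK, ?_, ?_⟩
  · rw [← h1, ← h3, add_apply, add_apply]
    ring
  · rw [← h2, ← h4, add_apply, add_apply]
    ring

theorem W.mul {F G : H n → ℂ} {j : Fin n} {z : H n} {d d' e e' : ℂ} (hF : W F j z d d')
    (hG : W G j z e e') : W (fun y => F y * G y) j z (d * G z + F z * e) (d' * G z + F z * e') := by
  obtain ⟨L, hL, h1, h2⟩ := hF
  obtain ⟨K, hK, h3, h4⟩ := hG
  refine ⟨F z • K + G z • L, hL.mul hK, ?_, ?_⟩
  · rw [← h1, ← h3]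
    simp only [add_apply, smul_apply, smul_eq_mul]
    ring
  · rw [← h2, ← h4]
    simp only [add_apply, smul_apply, smul_eq_mul]
    ring

theorem W.conj {F : H n → ℂ} {j : Fin n} {z : H n} {d d' : ℂ} (hF : W F j z d d') :
    W (fun y => conj (F y)) j z (conj d') (conj d) := by
  obtain ⟨L, hL, h1, h2⟩ := hF
  refine ⟨(Complex.conjCLE : ℂ →L[ℝ] ℂ).comp L,
    (Complex.conjCLE : ℂ →L[ℝ] ℂ).hasFDerivAt.comp z hL, ?_, ?_⟩
  · rw [← h2]
    simp
    ring
  · rw [← h1]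
    simp

theorem W.comp {F : H n → ℂ} {j : Fin n} {z : H n} {d d' : ℂ} (hF : W F j z d d') {f : ℂ → ℂ}
    {f' : ℂ} (hf : HasDerivAt f f' (F z)) : W (fun y => f (F y)) j z (f' * d) (f' * d') := by
  obtain ⟨L, hL, h1, h2⟩ := hF
  refine ⟨_, (hf.hasFDerivAt.restrictScalars ℝ).comp z hL, ?_, ?_⟩
  · rw [← h1]
    simp
    ring
  · rw [← h2]
    simp
    ring

/-! ### The functions `z_k` and `ν` -/

/-- `z_k` as a linear map -/
noncomputable def zL (k : Fin n) : H n →ₗ[ℝ] ℂ where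
  toFun := zc k
  map_add' x y := by
    apply Complex.ext <;> rfl
  map_smul' c x := by
    apply Complex.ext
    · show c * x.1 k = (((c : ℝ) : ℂ) * zc k x).re
      rw [Complex.re_ofReal_mul]
      rfl
    · show c * x.2.1 k = (((c : ℝ) : ℂ) * zc k x).im
      rw [Complex.im_ofReal_mul]
      rfl

theorem zc_fd (k : Fin n) (z : H n) :
    HasFDerivAt (zc k) (zL k).toContinuousLinearMap z :=
  (zL k).toContinuousLinearMap.hasFDerivAt

theorem W_zc (k j : Fin n) (z : H n) : W (zc k) j z (if k = j then 2 else 0) 0 := by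
  refine ⟨_, zc_fd k z, ?_, ?_⟩
  · show zc k (vX j z) - Complex.I * zc k (vY j z) = _
    by_cases h : k = j
    · rw [if_pos h, h]
      apply Complex.ext <;> simp [zc, vX, vY]
      norm_num
    · rw [if_neg h]
      apply Complex.ext <;> simp [zc, vX, vY, h]
  · show zc k (vX j z) + Complex.I * zc k (vY j z) = _
    by_cases h : k = j
    · rw [h]
      apply Complex.ext <;> simp [zc, vX, vY]
    · apply Complex.ext <;> simp [zc, vX, vY, h]

theorem nu_eq (z : H n) :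
    nu z = 1 + ((‖z.1‖ ^ 2 + ‖z.2.1‖ ^ 2 : ℝ) : ℂ) - ((z.2.2 : ℝ) : ℂ) * Complex.I := by
  have : nu z = ((1 + H93.HQ.sq z : ℝ) : ℂ) + ((-z.2.2 : ℝ) : ℂ) * Complex.I :=
    Complex.mk_eq_add_mul_I _ _
  rw [this]
  unfold H93.HQ.sq
  push_cast
  ring

/-- the derivative of `ν` -/
noncomputable def nL (z : H n) : H n →L[ℝ] ℂ :=
  Complex.ofRealCLM.comp (2 • (innerSL ℝ z.1).comp (ContinuousLinearMap.fst ℝ (V n) (V n × ℝ)) +
    2 • (innerSL ℝ z.2.1).comp ((ContinuousLinearMap.fst ℝ (V n) ℝ).comp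
      (ContinuousLinearMap.snd ℝ (V n) (V n × ℝ)))) -
  (ContinuousLinearMap.toSpanSingleton ℝ Complex.I).comp ((ContinuousLinearMap.snd ℝ (V n) ℝ).comp
      (ContinuousLinearMap.snd ℝ (V n) (V n × ℝ)))

theorem nu_fd (z : H n) : HasFDerivAt nu (nL z) z := by
  have h1 : HasFDerivAt (fun y : H n => ‖y.1‖ ^ 2)
      (2 • (innerSL ℝ z.1).comp (ContinuousLinearMap.fst ℝ (V n) (V n × ℝ))) z :=
    (hasFDerivAt_fst (𝕜 := ℝ) (p := z)).norm_sq
  have h2 : HasFDerivAt (fun y : H n => ‖y.2.1‖ ^ 2)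
      (2 • (innerSL ℝ z.2.1).comp ((ContinuousLinearMap.fst ℝ (V n) ℝ).comp
      (ContinuousLinearMap.snd ℝ (V n) (V n × ℝ)))) z :=
    ((ContinuousLinearMap.fst ℝ (V n) ℝ).comp
      (ContinuousLinearMap.snd ℝ (V n) (V n × ℝ))).hasFDerivAt.norm_sq
  have h3 : HasFDerivAt (fun y : H n => ((‖y.1‖ ^ 2 + ‖y.2.1‖ ^ 2 : ℝ) : ℂ))
      (Complex.ofRealCLM.comp _) z := Complex.ofRealCLM.hasFDerivAt.comp z (h1.add h2)
  have h4 := ((ContinuousLinearMap.toSpanSingleton ℝ Complex.I).comp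
      ((ContinuousLinearMap.snd ℝ (V n) ℝ).comp
      (ContinuousLinearMap.snd ℝ (V n) (V n × ℝ)))).hasFDerivAt (x := z)
  have h5 := (h3.const_add 1).sub h4
  refine h5.congr_of_eventuallyEq (Eventually.of_forall fun y => ?_)
  show nu y = 1 + _ - _
  rw [nu_eq]
  simp

theorem W_nu (j : Fin n) (z : H n) : W nu j z (4 * conj (zc j z)) 0 := by
  have hX : nL z (vX j z) = 2 * conj (zc j z) := by
    apply Complex.ext <;> simp [nL, vX, zc, EuclideanSpace.inner_single_right]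
  have hY : nL z (vY j z) = 2 * Complex.I * conj (zc j z) := by
    apply Complex.ext <;> simp [nL, vY, zc, EuclideanSpace.inner_single_right]
  refine ⟨_, nu_fd z, ?_, ?_⟩
  · rw [hX, hY]
    linear_combination (-2 * conj (zc j z)) * Complex.I_mul_I
  · rw [hX, hY]
    linear_combination (2 * conj (zc j z)) * Complex.I_mul_I

/-! ### The monomials -/

/-- `z^α` -/
noncomputable def Zp (α : Fin n → ℕ) (z : H n) : ℂ := ∏ j, zc j z ^ α j

/-- `α - e_j` -/
def dn (α : Fin n → ℕ) (j : Fin n) : Fin n → ℕ := Function.update α j (α j - 1)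

theorem W_pow (k j : Fin n) (z : H n) (m : ℕ) :
    W (fun y => zc k y ^ m) j z (if k = j then 2 * m * zc k z ^ (m - 1) else 0) 0 := by
  refine ((W_zc k j z).comp (hasDerivAt_pow m (zc k z))).congr ?_ (by simp)
  by_cases h : k = j
  · rw [if_pos h, if_pos h]
    ring
  · rw [if_neg h, if_neg h, mul_zero]

theorem W_prod (α : Fin n → ℕ) (j : Fin n) (z : H n) (s : Finset (Fin n)) (h : j ∉ s) :
    W (fun y => ∏ k ∈ s, zc k y ^ α k) j z 0 0 := by
  classical
  induction s using Finset.induction_on with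
  | empty => simpa using W_const 1 j z
  | insert k s hk ih =>
    have hkj : k ≠ j := fun e => h (by simp [e])
    have h1 := (W_pow k j z (α k)).mul (ih fun e => h (Finset.mem_insert_of_mem e))
    simp only [Finset.prod_insert hk]
    refine h1.congr ?_ ?_
    · rw [if_neg hkj]
      ring
    · ring

theorem Zp_dn (α : Fin n → ℕ) (j : Fin n) (z : H n) :
    Zp (dn α j) z = zc j z ^ (α j - 1) * ∏ k ∈ Finset.univ.erase j, zc k z ^ α k := by
  unfold Zp
  rw [← Finset.mul_prod_erase Finset.univ _ (Finset.mem_univ j)]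
  congr 1
  · simp [dn]
  · refine Finset.prod_congr rfl fun k hk => ?_
    rw [dn, Function.update_of_ne (Finset.ne_of_mem_erase hk)]

theorem W_Zp (α : Fin n → ℕ) (j : Fin n) (z : H n) :
    W (Zp α) j z (2 * α j * Zp (dn α j) z) 0 := by
  have e : Zp α = fun y : H n => zc j y ^ α j * ∏ k ∈ Finset.univ.erase j, zc k y ^ α k := by
    funext y
    exact (Finset.mul_prod_erase Finset.univ _ (Finset.mem_univ j)).symm
  rw [e]
  refine ((W_pow j j z (α j)).mul (W_prod α j z _ (Finset.notMem_erase j _))).congr ?_ ?_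
  · rw [if_pos rfl, Zp_dn]
    ring
  · ring

theorem Zp_mul (α : Fin n → ℕ) (j : Fin n) (z : H n) :
    α j * (zc j z * Zp (dn α j) z) = α j * Zp α z := by
  rcases Nat.eq_zero_or_pos (α j) with h | h
  · simp [h]
  · have hp : zc j z * zc j z ^ (α j - 1) = zc j z ^ α j := by
      rw [← pow_succ', Nat.sub_add_cancel h]
    rw [Zp_dn, Zp, ← Finset.mul_prod_erase Finset.univ _ (Finset.mem_univ j), ← hp]
    ring

/-- `ν^(-s)` -/
noncomputable def Pw (s : ℝ) (z : H n) : ℂ := nu z ^ (-(s : ℂ))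

theorem sl (z : H n) : nu z ∈ Complex.slitPlane := by
  refine Or.inl ?_
  show 0 < 1 + H93.HQ.sq z
  have : 0 ≤ H93.HQ.sq z := by
    unfold H93.HQ.sq
    positivity
  linarith

theorem nu_ne (z : H n) : nu z ≠ 0 := Complex.slitPlane_ne_zero (sl z)

theorem nu_Pw (s : ℝ) (z : H n) : nu z * Pw (s + 1) z = Pw s z := by
  unfold Pw
  have h : (-((s : ℝ) : ℂ)) = 1 + -(((s + 1 : ℝ)) : ℂ) := by
    push_cast
    ring
  rw [h, Complex.cpow_add _ _ (nu_ne z), Complex.cpow_one]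

theorem W_Pw (s : ℝ) (j : Fin n) (z : H n) :
    W (Pw s) j z (-4 * s * conj (zc j z) * Pw (s + 1) z) 0 := by
  have h := (hasDerivAt_id (nu z)).cpow_const (c := -(s : ℂ)) (sl z)
  refine ((W_nu j z).comp h).congr ?_ (by simp)
  have e : -(s : ℂ) - 1 = -(((s + 1 : ℝ)) : ℂ) := by
    push_cast
    ring
  rw [e]
  unfold Pw
  simp only [id]
  ring

/-- `z^α ν^(-s)` -/
noncomputable def Mo (α : Fin n → ℕ) (s : ℝ) (z : H n) : ℂ := Zp α z * Pw s z

/-- `D_j (z^α ν^(-s))` -/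
noncomputable def Gm (α : Fin n → ℕ) (s : ℝ) (j : Fin n) (z : H n) : ℂ :=
  2 * α j * Mo (dn α j) s z + -4 * s * (conj (zc j z) * Mo α (s + 1) z)

theorem W_Mo (α : Fin n → ℕ) (s : ℝ) (j : Fin n) (z : H n) : W (Mo α s) j z (Gm α s j z) 0 := by
  refine ((W_Zp α j z).mul (W_Pw s j z)).congr ?_ (by ring)
  unfold Gm Mo
  ring

theorem W_Gm (α : Fin n → ℕ) (s : ℝ) (j : Fin n) (z : H n) :
    ∃ d, W (Gm α s j) j z d (-8 * s * Mo α (s + 1) z) := by
  refine ⟨_, (((W_const (2 * α j) j z).mul (W_Mo (dn α j) s j z)).add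
    ((W_const (-4 * s) j z).mul ((W_zc j j z).conj.mul (W_Mo α (s + 1) j z)))).congr rfl ?_⟩
  rw [if_pos rfl]
  simp only [map_ofNat]
  ring

theorem W_E (α β : Fin n → ℕ) (s s' : ℝ) (j : Fin n) (z : H n) :
    W (fun y => Mo α s y * conj (Mo β s' y)) j z (Gm α s j z * conj (Mo β s' z))
      (Mo α s z * conj (Gm β s' j z)) := by
  refine ((W_Mo α s j z).mul (W_Mo β s' j z).conj).congr ?_ ?_
  · simp
  · simp

theorem second (α β : Fin n → ℕ) (s s' : ℝ) (j : Fin n) (z : H n) :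
    X (fun y => X (fun y => Mo α s y * conj (Mo β s' y)) j y) j z +
      Y (fun y => Y (fun y => Mo α s y * conj (Mo β s' y)) j y) j z =
      Gm α s j z * conj (Gm β s' j z) - 4 * s * Mo α (s + 1) z * conj (Mo β s' z) -
        4 * s' * Mo α s z * conj (Mo β (s' + 1) z) := by
  have eX : (fun y => X (fun y => Mo α s y * conj (Mo β s' y)) j y) =
      fun y => (1 / 2) * (Gm α s j y * conj (Mo β s' y)) +
        (1 / 2) * (Mo α s y * conj (Gm β s' j y)) := by
    funext y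
    rw [(W_E α β s s' j y).X_eq]
    ring
  have eY : (fun y => Y (fun y => Mo α s y * conj (Mo β s' y)) j y) =
      fun y => (Complex.I / 2) * (Gm α s j y * conj (Mo β s' y)) +
        (-Complex.I / 2) * (Mo α s y * conj (Gm β s' j y)) := by
    funext y
    rw [(W_E α β s s' j y).Y_eq]
    ring
  obtain ⟨d, hd⟩ := W_Gm α s j z
  obtain ⟨d', hd'⟩ := W_Gm β s' j z
  have hA := hd.mul (W_Mo β s' j z).conj
  have hB := (W_Mo α s j z).mul hd'.conj
  have h1 := ((W_const (1 / 2) j z).mul hA).add ((W_const (1 / 2) j z).mul hB)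
  have h2 := ((W_const (Complex.I / 2) j z).mul hA).add ((W_const (-Complex.I / 2) j z).mul hB)
  rw [eX, eY, h1.X_eq, h2.Y_eq]
  simp only [map_zero, map_mul, map_neg, map_ofNat, Complex.conj_ofReal]
  linear_combination (-(1 / 2) * (Gm α s j z * conj (Gm β s' j z)) +
    (1 / 4) * (conj (Mo β s' z) * d) + 2 * (conj (Mo β s' z) * s * Mo α (s + 1) z) +
    2 * (Mo α s z * s' * conj (Mo β (s' + 1) z)) + (1 / 4) * (Mo α s z * conj d')) *
    Complex.I_mul_I

/-! ### The functions `EE` -/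

theorem ww_eq (z : H n) : ((ww z : ℝ) : ℂ) = nu z * conj (nu z) := by
  rw [Complex.mul_conj, Complex.normSq_apply]
  congr 1
  show _ = (1 + H93.HQ.sq z) * (1 + H93.HQ.sq z) + (-z.2.2) * (-z.2.2)
  unfold ww
  ring

theorem ww_norm (z : H n) : ww z = ‖nu z‖ ^ 2 := by
  have h := ww_eq z
  rw [Complex.mul_conj, Complex.normSq_eq_norm_sq] at h
  exact_mod_cast h

theorem u0_eq (z : H n) : ((u0 n z : ℝ) : ℂ) = Pw (n / 2) z * conj (Pw (n / 2) z) := by
  rw [Complex.mul_conj, Complex.normSq_eq_norm_sq]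
  congr 1
  unfold u0 Pw
  have hn : 0 ≤ ‖nu z‖ := norm_nonneg _
  rw [Complex.norm_cpow_of_ne_zero (nu_ne z), ww_norm]
  have e1 : (-(((n / 2 : ℝ)) : ℂ)).re = -(n : ℝ) / 2 := by
    rw [Complex.neg_re, Complex.ofReal_re]
    ring
  have e2 : (-(((n / 2 : ℝ)) : ℂ)).im = 0 := by
    rw [Complex.neg_im, Complex.ofReal_im, neg_zero]
  rw [e1, e2, mul_zero, Real.exp_zero, div_one, ← Real.rpow_natCast, ← Real.rpow_natCast,
    ← Real.rpow_mul hn, ← Real.rpow_mul hn, mul_comm]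

theorem Pw_nat (s : ℝ) (a : ℕ) (z : H n) : Pw (s + a) z = Pw s z / nu z ^ a := by
  unfold Pw
  have h : (-(((s + a : ℝ)) : ℂ)) = -(s : ℂ) - (a : ℂ) := by
    push_cast
    ring
  rw [h, Complex.cpow_sub _ _ (nu_ne z), Complex.cpow_natCast]

theorem EE_eq (α β : Fin n → ℕ) (a b : ℕ) (z : H n) :
    EE α β a b z = Mo α (n / 2 + a) z * conj (Mo β (n / 2 + b) z) := by
  unfold EE Mo
  rw [Pw_nat, Pw_nat, u0_eq]
  simp only [map_mul, map_div₀, map_pow]
  have h : conj (Zp β z) = ∏ j, conj (zc j z) ^ β j := by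
    unfold Zp
    rw [map_prod]
    simp only [map_pow]
  rw [h]
  unfold Zp
  have h1 := nu_ne z
  have h2 : conj (nu z) ≠ 0 := (map_ne_zero _).2 h1
  field_simp

theorem smooth_zc (j : Fin n) : ContDiff ℝ ∞ (zc j : H n → ℂ) :=
  (zL j).toContinuousLinearMap.contDiff

theorem smooth_nu : ContDiff ℝ ∞ (nu : H n → ℂ) := by
  have : (nu : H n → ℂ) = fun z => 1 + ((‖z.1‖ ^ 2 + ‖z.2.1‖ ^ 2 : ℝ) : ℂ) -
      ((z.2.2 : ℝ) : ℂ) * Complex.I := funext nu_eq
  rw [this]
  have h1 : ContDiff ℝ ∞ fun z : H n => ‖z.1‖ ^ 2 + ‖z.2.1‖ ^ 2 :=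
    (contDiff_fst.norm_sq ℝ).add ((contDiff_fst.comp contDiff_snd).norm_sq ℝ)
  have h2 : ContDiff ℝ ∞ fun z : H n => z.2.2 := contDiff_snd.comp contDiff_snd
  exact (contDiff_const.add (Complex.ofRealCLM.contDiff.comp h1)).sub
    ((Complex.ofRealCLM.contDiff.comp h2).mul contDiff_const)

theorem smooth_u0 : ContDiff ℝ ∞ (u0 n) := by
  have h1 : ContDiff ℝ ∞ (ww : H n → ℝ) := by
    have : (ww : H n → ℝ) = fun z => ‖nu z‖ ^ 2 := funext ww_norm
    rw [this]
    exact smooth_nu.norm_sq ℝ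
  refine h1.rpow_const_of_ne fun z => ?_
  rw [ww_norm]
  exact pow_ne_zero 2 (norm_ne_zero_iff.2 (nu_ne z))

theorem smooth_EE (α β : Fin n → ℕ) (a b : ℕ) : ContDiff ℝ ∞ (EE α β a b : H n → ℂ) := by
  have hc : ContDiff ℝ ∞ (fun w : ℂ => conj w) := (Complex.conjCLE : ℂ →L[ℝ] ℂ).contDiff
  have h1 : ContDiff ℝ ∞ fun z : H n => ((u0 n z : ℝ) : ℂ) :=
    Complex.ofRealCLM.contDiff.comp smooth_u0
  have h2 : ContDiff ℝ ∞ fun z : H n => ∏ j, zc j z ^ α j :=
    contDiff_prod fun j _ => (smooth_zc j).pow _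
  have h3 : ContDiff ℝ ∞ fun z : H n => ∏ j, (starRingEnd ℂ (zc j z)) ^ β j :=
    contDiff_prod fun j _ => (hc.comp (smooth_zc j)).pow _
  have h4 : ContDiff ℝ ∞ fun z : H n => nu z ^ a * (starRingEnd ℂ (nu z)) ^ b :=
    (smooth_nu.pow _).mul ((hc.comp smooth_nu).pow _)
  have e : (EE α β a b : H n → ℂ) = fun z => ((u0 n z : ℝ) : ℂ) * (∏ j, zc j z ^ α j) *
      (∏ j, (starRingEnd ℂ (zc j z)) ^ β j) * (nu z ^ a * (starRingEnd ℂ (nu z)) ^ b)⁻¹ := by
    funext z
    unfold EE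
    rw [div_eq_mul_inv]
  rw [e]
  exact ((h1.mul h2).mul h3).mul (h4.inv fun z =>
    mul_ne_zero (pow_ne_zero _ (nu_ne z)) (pow_ne_zero _ ((map_ne_zero _).2 (nu_ne z))))

theorem sum_zc (z : H n) :
    ∑ j, zc j z * conj (zc j z) = (nu z + conj (nu z)) / 2 - 1 := by
  have h1 : ∀ j : Fin n, zc j z * conj (zc j z) = ((z.1 j ^ 2 + z.2.1 j ^ 2 : ℝ) : ℂ) := by
    intro j
    rw [Complex.mul_conj, Complex.normSq_apply]
    congr 1
    show z.1 j * z.1 j + z.2.1 j * z.2.1 j = _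
    ring
  rw [Finset.sum_congr rfl fun j _ => h1 j, ← Complex.ofReal_sum, Finset.sum_add_distrib,
    ← EuclideanSpace.real_norm_sq_eq, ← EuclideanSpace.real_norm_sq_eq, nu_eq]
  simp only [map_sub, map_add, map_one, map_mul, Complex.conj_ofReal, Complex.conj_I]
  ring

theorem term (α β : Fin n → ℕ) (s s' : ℝ) (j : Fin n) (z : H n) :
    -(Gm α s j z * conj (Gm β s' j z) - 4 * s * Mo α (s + 1) z * conj (Mo β s' z) -
        4 * s' * Mo α s z * conj (Mo β (s' + 1) z)) * (nu z * conj (nu z)) =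
      (4 * s * conj (nu z) + 4 * s' * nu z) * (Mo α s z * conj (Mo β s' z)) +
      (8 * s' * nu z * (Mo α s z * conj (Mo β s' z))) * α j +
      (8 * s * conj (nu z) * (Mo α s z * conj (Mo β s' z))) * β j -
      (16 * s * s' * (Mo α s z * conj (Mo β s' z))) * (zc j z * conj (zc j z)) -
      4 * ((α j : ℂ) * β j * (nu z * conj (nu z) *
        (Mo (dn α j) s z * conj (Mo (dn β j) s' z)))) := by
  have h1 : nu z * Mo α (s + 1) z = Mo α s z := by
    unfold Mo
    rw [← nu_Pw s]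
    ring
  have h2 : conj (nu z) * conj (Mo β (s' + 1) z) = conj (Mo β s' z) := by
    rw [← map_mul]
    unfold Mo
    rw [← nu_Pw s']
    congr 1
    ring
  have h3 : (α j : ℂ) * (zc j z * Mo (dn α j) s z) = α j * Mo α s z := by
    unfold Mo
    linear_combination (Pw s z) * Zp_mul α j z
  have h4 : (β j : ℂ) * (conj (zc j z) * conj (Mo (dn β j) s' z)) =
      β j * conj (Mo β s' z) := by
    have h5 : (β j : ℂ) * (zc j z * Mo (dn β j) s' z) = β j * Mo β s' z := by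
      unfold Mo
      linear_combination (Pw s' z) * Zp_mul β j z
    have h6 := congrArg conj h5
    simpa only [map_mul, map_natCast] using h6
  have h5 : nu z * Gm α s j z = 2 * α j * (nu z * Mo (dn α j) s z) -
      4 * s * (conj (zc j z) * Mo α s z) := by
    unfold Gm
    linear_combination (-4 * s * conj (zc j z)) * h1
  have h6 : conj (nu z) * conj (Gm β s' j z) = 2 * β j * (conj (nu z) * conj (Mo (dn β j) s' z)) -
      4 * s' * (zc j z * conj (Mo β s' z)) := by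
    unfold Gm
    simp only [map_add, map_mul, map_neg, map_natCast, map_ofNat, Complex.conj_ofReal,
      Complex.conj_conj]
    linear_combination (-4 * s' * zc j z) * h2
  have h7 : -(Gm α s j z * conj (Gm β s' j z) - 4 * s * Mo α (s + 1) z * conj (Mo β s' z) -
        4 * s' * Mo α s z * conj (Mo β (s' + 1) z)) * (nu z * conj (nu z)) =
      -((nu z * Gm α s j z) * (conj (nu z) * conj (Gm β s' j z))) +
      4 * s * (nu z * Mo α (s + 1) z) * conj (Mo β s' z) * conj (nu z) +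
      4 * s' * Mo α s z * (conj (nu z) * conj (Mo β (s' + 1) z)) * nu z := by ring
  rw [h7, h5, h6, h1, h2]
  linear_combination (8 * s' * nu z * conj (Mo β s' z)) * h3 +
    (8 * s * conj (nu z) * Mo α s z) * h4

theorem down (α : Fin n → ℕ) (a : ℕ) (ha : 1 ≤ a) (z : H n) :
    Mo α (n / 2 + ((a - 1 : ℕ) : ℝ)) z = nu z * Mo α (n / 2 + a) z := by
  have h1 := nu_Pw ((n : ℝ) / 2 + ((a - 1 : ℕ) : ℝ)) z
  have h2 : (n : ℝ) / 2 + ((a - 1 : ℕ) : ℝ) + 1 = n / 2 + a := by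
    rw [Nat.cast_sub ha]
    push_cast
    ring
  rw [h2] at h1
  unfold Mo
  rw [← h1]
  ring

end Cal

open Cal in
theorem pf_CAL : T_CAL := by
  intro n hn α β a b ha hb
  refine ⟨smooth_EE α β a b, fun z => ?_⟩
  set s : ℝ := n / 2 + a with hs
  set s' : ℝ := n / 2 + b with hs'
  have hEE : (EE α β a b : H n → ℂ) = fun y => Mo α s y * conj (Mo β s' y) :=
    funext fun y => EE_eq α β a b y
  rw [hEE, ww_eq]
  simp only [second]
  rw [← Finset.sum_neg_distrib, Finset.sum_mul, Finset.sum_congr rfl fun j _ => term α β s s' j z]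
  simp only [Finset.sum_sub_distrib, Finset.sum_add_distrib, ← Finset.mul_sum, sum_zc,
    Finset.sum_const, Finset.card_univ, Fintype.card_fin, nsmul_eq_mul]
  have h1 : ((b : ℂ) - ((∑ j, β j : ℕ) : ℂ)) * EE α β a (b - 1) z =
      ((b : ℂ) - ((∑ j, β j : ℕ) : ℂ)) * (conj (nu z) * (Mo α s z * conj (Mo β s' z))) := by
    rcases Nat.eq_zero_or_pos b with h | h
    · have h0 : ∑ j, β j = 0 := by omega
      rw [h0, h]
      simp
    · rw [EE_eq, down β b h, map_mul]
      ring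
  have h2 : ((a : ℂ) - ((∑ j, α j : ℕ) : ℂ)) * EE α β (a - 1) b z =
      ((a : ℂ) - ((∑ j, α j : ℕ) : ℂ)) * (nu z * (Mo α s z * conj (Mo β s' z))) := by
    rcases Nat.eq_zero_or_pos a with h | h
    · have h0 : ∑ j, α j = 0 := by omega
      rw [h0, h]
      simp
    · rw [EE_eq, down α a h]
      ring
  have h3 : ∀ j : Fin n, (α j : ℂ) * (β j : ℂ) *
      EE (Function.update α j (α j - 1)) (Function.update β j (β j - 1)) (a - 1) (b - 1) z =
      (α j : ℂ) * β j * (nu z * conj (nu z) * (Mo (dn α j) s z * conj (Mo (dn β j) s' z))) := by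
    intro j
    rcases Nat.eq_zero_or_pos (α j) with h | h
    · rw [h]
      simp
    rcases Nat.eq_zero_or_pos (β j) with h' | h'
    · rw [h']
      simp
    have hα : α j ≤ ∑ j, α j := Finset.single_le_sum (fun _ _ => Nat.zero_le _)
      (Finset.mem_univ j)
    have hβ : β j ≤ ∑ j, β j := Finset.single_le_sum (fun _ _ => Nat.zero_le _)
      (Finset.mem_univ j)
    rw [EE_eq, down _ a (by omega), down _ b (by omega), map_mul]
    unfold dn
    ring
  unfold LL
  have e1 : 8 * ((n : ℂ) / 2 + a) * ((b : ℂ) - ((∑ j, β j : ℕ) : ℂ)) * EE α β a (b - 1) z =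
      8 * ((n : ℂ) / 2 + a) * (((b : ℂ) - ((∑ j, β j : ℕ) : ℂ)) * EE α β a (b - 1) z) := by ring
  have e2 : 8 * ((n : ℂ) / 2 + b) * ((a : ℂ) - ((∑ j, α j : ℕ) : ℂ)) * EE α β (a - 1) b z =
      8 * ((n : ℂ) / 2 + b) * (((a : ℂ) - ((∑ j, α j : ℕ) : ℂ)) * EE α β (a - 1) b z) := by ring
  rw [e1, e2, h1, h2, Finset.sum_congr rfl fun j _ => h3 j, EE_eq, hs, hs']
  push_cast
  ring

end Pool.Agent.H20.HB
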